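import Mathlib

set_option autoImplicit false

namespace Pool.Agent.Results.MP_c05c30_lc.Counter
open FirstOrder Language

/-- logical homogeneity: tuples have the same type iff an automorphism maps one to the other -/
def Homog (L : Language) (M : Type) [L.Structure M] : Prop :=
  ∀ (n : ℕ) (a b : Fin n → M),
    (∀ φ : L.Formula (Fin n), φ.Realize a ↔ φ.Realize b) ↔ ∃ σ : M ≃[L] M, b = σ ∘ a

/-- the symbol of the language of semigroups -/
inductive MulF : ℕ → Type
  | mul : MulF 2

/-- the language of semigroups -/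
def Lsg : Language := ⟨MulF, fun _ => Empty⟩

instance sgStr (S : Type) [Mul S] : Lsg.Structure S where
  funMap := fun {_} f v => match f, v with
    | .mul, v => v 0 * v 1
  RelMap := fun r _ => r.elim

/-- the symbols of the language of associative `P`-algebras -/
inductive AlgF (P : Type) : ℕ → Type
  | add : AlgF P 2
  | mul : AlgF P 2
  | neg : AlgF P 1
  | zero : AlgF P 0
  | smul (c : P) : AlgF P 1

/-- the language of associative `P`-algebras -/
def Lalg (P : Type) : Language := ⟨AlgF P, fun _ => Empty⟩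

noncomputable instance algStr (P S : Type) [Field P] [Semigroup S] :
    (Lalg P).Structure (MonoidAlgebra P S) where
  funMap := fun {_} f v => match f, v with
    | .add, v => v 0 + v 1
    | .mul, v => v 0 * v 1
    | .neg, v => - v 0
    | .zero, _ => 0
    | .smul c, v => c • v 0
  RelMap := fun r _ => r.elim

/-- a field as a structure in the language of rings -/
@[instance_reducible] noncomputable def fieldStr (P : Type) [Field P] : Language.ring.Structure P :=
  (FirstOrder.Ring.compatibleRingOfRing P).toStructure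

inductive T (Y : Type) : Type
  | z | a | e | x (n : ℕ) | y (t : Y)

variable {Y : Type}

def mul : T Y → T Y → T Y
  | .e, t => t
  | s, .e => s
  | .a, .a => .a
  | .a, .x n => .x n
  | .x n, .a => .x n
  | _, _ => .z

instance : CommMonoid (T Y) where
  mul := mul
  one := .e
  mul_assoc r s t := by cases r <;> cases s <;> cases t <;> rfl
  one_mul s := by cases s <;> rfl
  mul_one s := by cases s <;> rfl
  mul_comm s t := by cases s <;> cases t <;> rfl

lemma mul_def (s t : T Y) : s * t = mul s t := rfl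

def k : T Y → ℕ
  | .z => 0 | .a => 1 | .e => 2 | .x _ => 3 | .y _ => 4

lemma perm_mul (σ : Equiv.Perm (T Y)) (h : ∀ s, k (σ s) = k s) (s t : T Y) :
    σ (s * t) = σ s * σ t := by
  have hz : σ .z = .z := by have := h .z; revert this; cases σ .z <;> simp [k]
  have ha : σ .a = .a := by have := h .a; revert this; cases σ .a <;> simp [k]
  have he : σ .e = .e := by have := h .e; revert this; cases σ .e <;> simp [k]
  have hx : ∀ n, ∃ m, σ (.x n) = .x m := fun n => by
    have := h (.x n); revert this; cases σ (.x n) <;> simp [k]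
  have hy : ∀ n, ∃ m, σ (.y n) = .y m := fun n => by
    have := h (.y n); revert this; cases σ (.y n) <;> simp [k]
  choose f hf using hx
  choose g hg using hy
  cases s <;> cases t <;> simp only [mul_def, mul, hz, ha, he, hf, hg]

def aut (σ : Equiv.Perm (T Y)) (h : ∀ s, k (σ s) = k s) : T Y ≃* T Y :=
  { σ with map_mul' := perm_mul σ h }

lemma k_swap [DecidableEq (T Y)] {u v : T Y} (h : k u = k v) (s : T Y) :
    k (Equiv.swap u v s) = k s := by
  rw [Equiv.swap_apply_def]; split_ifs with h1 h2
  · rw [h1, h]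
  · rw [h2, h]
  · rfl

lemma exists_perm : ∀ (n : ℕ) (a b : Fin n → T Y), (∀ i j, a i = a j ↔ b i = b j) →
    (∀ i, k (a i) = k (b i)) →
    ∃ σ : Equiv.Perm (T Y), (∀ s, k (σ s) = k s) ∧ ∀ i, σ (a i) = b i := by
  classical
  intro n
  induction n with
  | zero => intro a b _ _; exact ⟨1, fun _ => rfl, fun i => i.elim0⟩
  | succ n ih =>
    intro a b h1 h2
    obtain ⟨σ, hk, hσ⟩ := ih (fun i => a i.castSucc) (fun i => b i.castSucc)
      (fun i j => h1 _ _) (fun i => h2 _)
    refine ⟨Equiv.swap (σ (a (Fin.last n))) (b (Fin.last n)) * σ, fun s => ?_, fun i => ?_⟩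
    · rw [Equiv.Perm.mul_apply, k_swap (by rw [hk, h2]), hk]
    · rw [Equiv.Perm.mul_apply]
      by_cases hi : a i = a (Fin.last n)
      · rw [hi, Equiv.swap_apply_left, (h1 _ _).1 hi]
      · have : σ (a i) = b i := by
          rcases Fin.eq_castSucc_or_eq_last i with ⟨j, rfl⟩ | rfl
          · exact hσ j
          · exact absurd rfl hi
        rw [Equiv.swap_apply_of_ne_of_ne (fun h => hi (σ.injective h))
          (by rw [this]; exact fun h => hi ((h1 _ _).2 h)), this]

def tm {α : Type} (s t : Lsg.Term α) : Lsg.Term α := Term.func MulF.mul ![s, t]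

@[simp] lemma tm_real {α : Type} (s t : Lsg.Term α) (v : α → T Y) :
    (tm s t).realize v = s.realize v * t.realize v := rfl

lemma q1 (s : T Y) : s * s = s ↔ k s ≤ 2 := by cases s <;> simp [mul_def, mul, k]

lemma q2 (s : T Y) : (∀ t, s * t = s) ↔ k s = 0 := by
  refine ⟨fun h => ?_, fun h t => ?_⟩
  · have := h .z
    revert this; cases s <;> simp [mul_def, mul, k]
  · revert h; cases s <;> cases t <;> simp [mul_def, mul, k]

lemma q3 (s : T Y) : (∀ t, s * t = t) ↔ k s = 2 := by
  refine ⟨fun h => ?_, fun h t => ?_⟩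
  · have := h .e
    revert this; cases s <;> simp [mul_def, mul, k]
  · revert h; cases s <;> cases t <;> simp [mul_def, mul, k]

lemma q4 (s : T Y) : (∃ w, w * s = s ∧ ∃ t, ¬ w * t = t) ↔ k s ≠ 2 ∧ k s ≠ 4 := by
  refine ⟨fun ⟨w, h, t, ht⟩ => ?_, fun h => ⟨.a, ?_, .e, by simp [mul_def, mul]⟩⟩
  · revert h ht; cases s <;> cases w <;> simp [mul_def, mul, k]
  · revert h; cases s <;> simp [mul_def, mul, k]

lemma k_le (s : T Y) : k s ≤ 4 := by cases s <;> simp [k]

lemma homT : Homog Lsg (T Y) := by
  intro n a b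
  refine ⟨fun h => ?_, fun ⟨σ, hσ⟩ φ => by rw [hσ, StrongHomClass.realize_formula]⟩
  have h1 : ∀ i j, a i = a j ↔ b i = b j := fun i j => by
    simpa using h ((Term.var i).equal (Term.var j))
  have h2 : ∀ i, k (a i) = k (b i) := fun i => by
    have p1 : a i * a i = a i ↔ b i * b i = b i := by
      simpa using h ((tm (.var i) (.var i)).equal (.var i))
    have p2 := h (∀' (tm (.var (.inl i)) (&0) =' (.var (.inl i))))
    have p3 := h (∀' (tm (.var (.inl i)) (&0) =' (&0)))
    have p4 := h (∃' ((tm (&0) (.var (.inl i)) =' (.var (.inl i))) ⊓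
      ∼ (∀' (tm (&0) (&1) =' (&1)))))
    simp [Formula.Realize, Fin.snoc] at p2 p3 p4
    rw [q1, q1] at p1
    rw [q2, q2] at p2
    rw [q3, q3] at p3
    rw [q4, q4] at p4
    have := k_le (a i)
    have := k_le (b i)
    omega
  obtain ⟨σ, hk, hσ⟩ := exists_perm n a b h1 h2
  refine ⟨⟨σ, ?_, fun r => r.elim⟩, funext fun i => (hσ i).symm⟩
  rintro _ ⟨⟩ v
  exact perm_mul σ hk _ _

abbrev F := ZMod 2

lemma homF : @Homog Language.ring F (fieldStr F) := by
  let := FirstOrder.Ring.compatibleRingOfRing F
  intro n a b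
  refine ⟨fun h => ⟨Language.Equiv.refl _ _, funext fun i => ?_⟩,
    fun ⟨σ, hσ⟩ φ => by rw [hσ, StrongHomClass.realize_formula]⟩
  have := h ((Term.var i).equal 0)
  simp at this
  change b i = a i
  revert this
  generalize a i = s
  generalize b i = t
  revert s t
  decide

abbrev A (Y : Type) := MonoidAlgebra F (T Y)

noncomputable def emb {X : Type} (f : A X →ₐ[F] A Y) (hf : Function.Injective f) : A X ↪[Lalg F] A Y where
  toFun := f
  inj' := hf
  map_fun' := by
    rintro _ ⟨⟩ v
    · exact map_add f _ _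
    · exact map_mul f _ _
    · exact map_neg f _
    · exact map_zero f
    · exact map_smul f _ _
  map_rel' := fun r => r.elim

noncomputable def eqv {X : Type} (f : A X ≃ₐ[F] A Y) : A X ≃[Lalg F] A Y where
  toEquiv := f.toEquiv
  map_fun' := by
    rintro _ ⟨⟩ v
    · exact map_add f _ _
    · exact map_mul f _ _
    · exact map_neg f _
    · exact map_zero f
    · exact map_smul f _ _
  map_rel' := fun r => r.elim

def io (g : ℕ → Y) : T ℕ →* T Y where
  toFun | .z => .z | .a => .a | .e => .e | .x n => .x n | .y n => .y (g n)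
  map_one' := rfl
  map_mul' s t := by cases s <;> cases t <;> rfl

lemma io_inj {g : ℕ → Y} (hg : Function.Injective g) : Function.Injective (io g) := by
  intro s t h
  cases s <;> cases t <;> simp [io] at h ⊢ <;> first | exact h | exact hg h

lemma move {g : ℕ → Y} (hg : Function.Injective g) (F : Finset (T Y))
    (hF : ∀ s ∈ F, s ∈ Set.range (io g)) (G : Finset (T Y)) :
    ∃ σ : Equiv.Perm (T Y), (∀ s, k (σ s) = k s) ∧ (∀ s ∈ F, σ s = s) ∧
      ∀ s ∈ G, σ s ∈ Set.range (io g) := by
  classical
  induction G using Finset.induction_on with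
  | empty => exact ⟨1, fun _ => rfl, fun _ _ => rfl, by simp⟩
  | insert t G _ ih =>
    obtain ⟨σ, hk, h1, h2⟩ := ih
    by_cases ht : σ t ∈ Set.range (io g)
    · exact ⟨σ, hk, h1, fun s hs => (Finset.mem_insert.1 hs).elim (fun h => h ▸ ht) (h2 s)⟩
    have h4 : k (σ t) = 4 := by
      revert ht
      cases σ t with
      | z => exact fun h => absurd ⟨.z, rfl⟩ h
      | a => exact fun h => absurd ⟨.a, rfl⟩ h
      | e => exact fun h => absurd ⟨.e, rfl⟩ h
      | x n => exact fun h => absurd ⟨.x n, rfl⟩ h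
      | y n => exact fun _ => rfl
    have hi : Function.Injective (fun n => (T.y (g n) : T Y)) := fun m n h => hg (by simpa using h)
    obtain ⟨_, ⟨r, rfl⟩, hr⟩ := (Set.infinite_range_of_injective hi).exists_notMem_finset
      (F ∪ G.image σ)
    simp only [Finset.mem_union, Finset.mem_image, not_or, not_exists, not_and] at hr
    refine ⟨Equiv.swap (σ t) (.y (g r)) * σ, fun s => ?_, fun s hs => ?_, fun s hs => ?_⟩
    · rw [Equiv.Perm.mul_apply, k_swap (by rw [h4]; rfl), hk]
    · rw [Equiv.Perm.mul_apply, h1 s hs]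
      exact Equiv.swap_apply_of_ne_of_ne (fun h => ht (h ▸ hF s hs)) (fun h => hr.1 (h ▸ hs))
    · rw [Equiv.Perm.mul_apply]
      rcases Finset.mem_insert.1 hs with rfl | hs
      · rw [Equiv.swap_apply_left]; exact ⟨.y r, rfl⟩
      · rw [Equiv.swap_apply_of_ne_of_ne (fun h => ht (by rw [← h]; exact h2 s hs)) (hr.2 s hs)]
        exact h2 s hs

noncomputable def E {g : ℕ → Y} (hg : Function.Injective g) : A ℕ ↪[Lalg F] A Y :=
  emb (MonoidAlgebra.mapDomainAlgHom F F (io g)) (MonoidAlgebra.mapDomain_injective (io_inj hg))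

lemma E_apply {g : ℕ → Y} (hg : Function.Injective g) (u : A ℕ) :
    E hg u = MonoidAlgebra.mapDomain (io g) u := rfl

lemma elem {g : ℕ → Y} (hg : Function.Injective g) {n : ℕ} (φ : (Lalg F).Formula (Fin n))
    (x : Fin n → A ℕ) : φ.Realize (E hg ∘ x) ↔ φ.Realize x := by
  classical
  refine (E hg).isElementary_of_exists (fun n φ x a h => ?_) φ x
  obtain ⟨σ, hk, h1, h2⟩ := move hg (Finset.univ.biUnion fun i => (E hg (x i)).coeff.support)
    (fun s hs => by
      obtain ⟨i, -, hi⟩ := Finset.mem_biUnion.1 hs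
      obtain ⟨t, -, rfl⟩ := Finset.mem_image.1 (Finsupp.mapDomain_support hi)
      exact ⟨t, rfl⟩) a.coeff.support
  let τ := eqv (MonoidAlgebra.domCongr F F (aut σ hk))
  have hτ : ∀ u : A Y, τ u = MonoidAlgebra.mapDomain σ u := fun u => rfl
  have hb : ∃ b, E hg b = τ a := by
    refine ⟨.ofCoeff ((τ a).coeff.comapDomain (io g) (io_inj hg).injOn), ?_⟩
    rw [E_apply, MonoidAlgebra.mapDomain, Finsupp.mapDomain_comapDomain _ (io_inj hg)]
    intro s hs
    obtain ⟨t, ht, rfl⟩ := Finset.mem_image.1 (Finsupp.mapDomain_support (hτ a ▸ hs))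
    exact h2 t ht
  obtain ⟨b, hb⟩ := hb
  refine ⟨b, ?_⟩
  have := (StrongHomClass.realize_boundedFormula τ φ).2 h
  rw [Fin.comp_snoc] at this
  have e : τ ∘ (E hg ∘ x) = E hg ∘ x := by
    funext i
    change τ (E hg (x i)) = E hg (x i)
    rw [hτ, MonoidAlgebra.mapDomain, Finsupp.mapDomain_congr (g := id)
      (fun s hs => h1 s (Finset.mem_biUnion.2 ⟨i, Finset.mem_univ _, hs⟩)), Finsupp.mapDomain_id]
  rw [e, ← hb] at this
  exact (iff_of_eq (congrArg (fun v => φ.Realize v _) (Subsingleton.elim _ _))).1 this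

noncomputable def o (s : T Y) : A Y := MonoidAlgebra.single s 1

lemma o_mul (s t : T Y) : o s * o t = o (mul s t) := by
  simp [o, MonoidAlgebra.single_mul_single, mul_def]

noncomputable def sw : T ℕ →* A ℕ where
  toFun | .z => o .z | .a => o .e - o .a + o .z | .e => o .e | .x n => o (.y n) | .y n => o (.x n)
  map_one' := rfl
  map_mul' s t := by
    cases s <;> cases t <;> simp only [mul_def, mul, mul_add, add_mul, mul_sub, sub_mul, o_mul] <;> abel

noncomputable def SW : A ℕ →ₐ[F] A ℕ := MonoidAlgebra.lift F (A ℕ) (T ℕ) sw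

lemma SW_o (s : T ℕ) : SW (o s) = sw s := by simp [SW, o]

lemma SW_SW : SW.comp SW = AlgHom.id F _ := by
  have hz : SW (o .z) = o .z := SW_o _
  have he : SW (o .e) = o .e := SW_o _
  have ha : SW (o .a) = o .e - o .a + o .z := SW_o _
  have hx : ∀ n, SW (o (.x n)) = o (.y n) := fun _ => SW_o _
  have hy : ∀ n, SW (o (.y n)) = o (.x n) := fun _ => SW_o _
  have key : ∀ s, SW (SW (o s)) = o s := fun s => by
    cases s <;> simp only [hz, he, ha, hx, hy, map_add, map_sub]
    abel
  exact MonoidAlgebra.algHom_ext key (AlgHom.ext fun c => by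
    rw [← mul_one c, ← smul_eq_mul, map_smul, map_smul, map_one, map_one])

lemma cnt : (Set.range fun w : A Y => o .a * w).Countable := by
  classical
  have : (Set.range fun w : A Y => o .a * w) ⊆
      Set.range (MonoidAlgebra.mapDomain (fun s : Option (Option ℕ) =>
        (s.elim .z fun t => t.elim .a .x : T Y)) : MonoidAlgebra F _ → A Y) := by
    rintro _ ⟨w, rfl⟩
    induction w using MonoidAlgebra.induction_linear with
    | zero => exact ⟨0, by simp⟩
    | add u v hu hv =>
      obtain ⟨p, hp⟩ := hu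
      obtain ⟨q, hq⟩ := hv
      exact ⟨p + q, by simp only [MonoidAlgebra.mapDomain_add, hp, hq, mul_add]⟩
    | single s c =>
      simp only [o, MonoidAlgebra.single_mul_single, one_mul]
      cases s with
      | z => exact ⟨.single none c, MonoidAlgebra.mapDomain_single⟩
      | a => exact ⟨.single (some none) c, MonoidAlgebra.mapDomain_single⟩
      | e => exact ⟨.single (some none) c, MonoidAlgebra.mapDomain_single⟩
      | x n => exact ⟨.single (some (some n)) c, MonoidAlgebra.mapDomain_single⟩
      | y n => exact ⟨.single none c, MonoidAlgebra.mapDomain_single⟩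
  have hc : Countable (MonoidAlgebra F (Option (Option ℕ))) :=
    MonoidAlgebra.coeff_injective.countable
  exact (Set.countable_range _).mono this

theorem result : ∃ (S : Type) (_ : CommMonoid S) (P : Type) (_ : Field P),
    Homog Lsg S ∧ @Homog Language.ring P (fieldStr P) ∧ ¬ Homog (Lalg P) (MonoidAlgebra P S) := by
  refine ⟨T ℝ, inferInstance, F, inferInstance, homT, homF, fun h => ?_⟩
  have hg : Function.Injective (Nat.cast : ℕ → ℝ) := Nat.cast_injective
  let τ := eqv (AlgEquiv.ofAlgHom SW SW SW_SW SW_SW)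
  obtain ⟨σ, hσ⟩ := (h 1 (E hg ∘ fun _ => o .a) (E hg ∘ τ ∘ fun _ => o .a)).1 fun φ => by
    rw [elem, elem, StrongHomClass.realize_formula]
  have h1 : σ (o .a) = o .e - o .a + o .z := by
    have e1 : ∀ s, E hg (o s) = o (io Nat.cast s) := fun s => MonoidAlgebra.mapDomain_single
    have := congrFun hσ 0
    change (MonoidAlgebra.mapDomainAlgHom F F (io Nat.cast)) (SW (o .a)) = σ (E hg (o .a)) at this
    rw [e1, SW_o] at this
    change (MonoidAlgebra.mapDomainAlgHom F F (io Nat.cast)) (o .e - o .a + o .z) = σ (o .a) at this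
    rw [← this, map_add, map_sub]
    exact congrArg₂ (· + ·) (congrArg₂ (· - ·) (e1 _) (e1 _)) (e1 _)
  have hm : ∀ u v : A ℝ, σ (u * v) = σ u * σ v := fun u v =>
    σ.map_fun (AlgF.mul : (Lalg F).Functions 2) ![u, v]
  have hi : Function.Injective fun t : ℝ => o (T.y t) := fun s t hst => by
    simpa [o, MonoidAlgebra.single_left_inj] using hst
  have : (Set.range fun t : ℝ => o (T.y t)).Countable := by
    refine (cnt.image σ).mono ?_
    rintro _ ⟨t, rfl⟩
    refine ⟨_, ⟨σ.symm (o (.y t)), rfl⟩, ?_⟩
    simp only [hm, h1, Language.Equiv.apply_symm_apply, add_mul, sub_mul, o_mul, mul]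
    abel
  rw [← Set.image_univ] at this
  exact Cardinal.not_countable_real (Set.countable_of_injective_of_countable_image hi.injOn this)

end Pool.Agent.Results.MP_c05c30_lc.Counter
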